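import Mathlib

/-! Abstract greedy lemma for a supermodular rank-like function `c` on finite sets. -/

namespace H42.LR

open Finset

set_option linter.unusedSectionVars false
set_option linter.unusedVariables false

variable {I : Type*} [DecidableEq I]

/-- one step of the greedy choice -/
private lemma greedy_step (c : Finset I → ℕ) (B : ℕ) (Kd K : Finset I)
    (hmono : ∀ X Y : Finset I, X ⊆ Y → c X ≤ c Y)
    (hsup : ∀ X Y : Finset I, c X + c Y ≤ c (X ∪ Y) + c (X ∩ Y))
    (hone : ∀ (X : Finset I) (e : I), c (insert e X) ≤ c X + 1)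
    (hmax : ∀ L : Finset I, L.card ≤ B → 3 * c L + Kd.card ≤ 3 * c Kd + L.card)
    (hKd : Kd ⊆ K) (hK : K.card ≤ B)
    (hB : Kd.card + 2 * c K + 2 ≤ B)
    (H : Finset I) (hHK : H ⊆ K \ Kd) (hcH : c (K \ H) + H.card = c K)
    (hinv : ∀ e, c (insert e (Kd ∪ H)) ≤ c Kd)
    (hlt : 2 * H.card + c Kd < c K) :
    ∃ y ∈ (K \ Kd) \ H, c (K \ insert y H) + (H.card + 1) = c K ∧
      ∀ e, c (insert e (Kd ∪ insert y H)) ≤ c Kd := by
  classical
  -- core
  have hKdsub : Kd ⊆ K \ H := by
    intro a ha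
    rw [mem_sdiff]
    refine ⟨hKd ha, fun h => ?_⟩
    have := hHK h
    rw [mem_sdiff] at this
    exact this.2 ha
  obtain ⟨L, hL1, hL2, hL3, hLmin⟩ : ∃ L : Finset I, Kd ⊆ L ∧ L ⊆ K \ H ∧ c L = c (K \ H) ∧
      ∀ L' : Finset I, Kd ⊆ L' → L' ⊆ K \ H → c L' = c (K \ H) → L.card ≤ L'.card := by
    have hne : ((K.powerset).filter (fun L => Kd ⊆ L ∧ L ⊆ K \ H ∧ c L = c (K \ H))).Nonempty :=
      ⟨K \ H, by
        rw [mem_filter, mem_powerset]
        exact ⟨sdiff_subset, hKdsub, subset_rfl, rfl⟩⟩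
    obtain ⟨L, hL, hLm⟩ := exists_min_image _ (fun L : Finset I => L.card) hne
    rw [mem_filter, mem_powerset] at hL
    refine ⟨L, hL.2.1, hL.2.2.1, hL.2.2.2, fun L' h1 h2 h3 => hLm L' ?_⟩
    rw [mem_filter, mem_powerset]
    exact ⟨h2.trans sdiff_subset, h1, h2, h3⟩
  have hLc : L.card ≤ B := (card_le_card (hL2.trans sdiff_subset)).trans hK
  have hLbig := hmax L hLc
  -- removing an element of the core drops c
  have hcore : ∀ y ∈ L \ Kd, c (K \ insert y H) + (H.card + 1) = c K := by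
    intro y hy
    rw [mem_sdiff] at hy
    have hyKH : y ∈ K \ H := hL2 hy.1
    have e1 : insert y (K \ insert y H) = K \ H := by
      ext a
      simp only [mem_insert, mem_sdiff, not_or]
      constructor
      · rintro (rfl | ⟨h1, h2, h3⟩)
        · exact mem_sdiff.mp hyKH
        · exact ⟨h1, h3⟩
      · rintro ⟨h1, h2⟩
        by_cases h : a = y
        · exact Or.inl h
        · exact Or.inr ⟨h1, h, h2⟩
    have hle := hone (K \ insert y H) y
    rw [e1] at hle
    by_contra hcon
    have hge : c (K \ H) ≤ c (K \ insert y H) := by omega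
    have hsub : K \ insert y H ⊆ K \ H := by
      intro a ha
      rw [mem_sdiff, mem_insert, not_or] at ha
      exact mem_sdiff.mpr ⟨ha.1, ha.2.2⟩
    have hs := hsup L (K \ insert y H)
    have e2 : L ∩ (K \ insert y H) ⊆ L.erase y := by
      intro a ha
      rw [mem_inter, mem_sdiff, mem_insert, not_or] at ha
      exact mem_erase.mpr ⟨ha.2.2.1, ha.1⟩
    have e3 : L ∪ (K \ insert y H) ⊆ K \ H := union_subset hL2 hsub
    have h1 := hmono _ _ e2
    have h2 := hmono _ _ e3
    have h3 : c (L.erase y) = c (K \ H) := by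
      have h4 := hmono _ _ ((erase_subset y L).trans hL2)
      omega
    have h5 := hLmin (L.erase y) (by
      intro a ha
      exact mem_erase.mpr ⟨fun h => hy.2 (h ▸ ha), hL1 ha⟩) ((erase_subset y L).trans hL2) h3
    have h6 : (L.erase y).card < L.card := card_erase_lt_of_mem hy.1
    omega
  -- the set of bad elements
  obtain ⟨L', hL'1, hL'2, hL'3, hL'max⟩ : ∃ L' : Finset I, Kd ∪ H ⊆ L' ∧
      L'.card + 2 * c Kd ≤ Kd.card + H.card + 2 * c L' ∧ L'.card ≤ B ∧
      ∀ L'' : Finset I, Kd ∪ H ⊆ L'' → L''.card + 2 * c Kd ≤ Kd.card + H.card + 2 * c L'' →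
        L''.card ≤ B → L''.card ≤ L'.card := by
    have hex : ∃ m, ∃ L' : Finset I, L'.card = m ∧ Kd ∪ H ⊆ L' ∧
      L'.card + 2 * c Kd ≤ Kd.card + H.card + 2 * c L' ∧ L'.card ≤ B := by
      refine ⟨_, Kd ∪ H, rfl, subset_rfl, ?_, ?_⟩
      · have h1 := card_union_le Kd H
        have h2 := hmono Kd (Kd ∪ H) subset_union_left
        omega
      · refine (card_le_card ?_).trans hK
        exact union_subset hKd (hHK.trans sdiff_subset)
    let P : ℕ → Prop := fun m => ∃ L' : Finset I, L'.card = m ∧ Kd ∪ H ⊆ L' ∧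
      L'.card + 2 * c Kd ≤ Kd.card + H.card + 2 * c L' ∧ L'.card ≤ B
    have hP : ∃ m, m ≤ B ∧ P m := by
      obtain ⟨m, L', h1, h2, h3, h4⟩ := hex
      exact ⟨m, by omega, L', h1, h2, h3, h4⟩
    obtain ⟨m0, hm0B, hm0⟩ := hP
    have hspec := Nat.findGreatest_spec (P := P) hm0B hm0
    obtain ⟨L', h1, h2, h3, h4⟩ := hspec
    refine ⟨L', h2, h3, h4, fun L'' g1 g2 g3 => ?_⟩
    rw [h1]
    exact Nat.le_findGreatest g3 ⟨L'', rfl, g1, g2, g3⟩
  have hL'max3 := hmax L' hL'3
  have hmonoL' : c Kd ≤ c L' := hmono _ _ (subset_union_left.trans hL'1)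
  -- a bad element lies in L'
  have hbad : ∀ y, y ∉ L' → ∀ e, c (insert e (Kd ∪ insert y H)) ≤ c Kd := by
    intro y hy e
    by_contra hcon
    rw [not_le] at hcon
    have hs := hsup L' (insert e (Kd ∪ insert y H))
    have e1 : L' ∩ insert e (Kd ∪ insert y H) ⊆ insert e (Kd ∪ H) := by
      intro a ha
      rw [mem_inter, mem_insert, mem_union, mem_insert] at ha
      rw [mem_insert, mem_union]
      rcases ha with ⟨h1, h2 | h2 | h2 | h2⟩
      · exact Or.inl h2
      · exact Or.inr (Or.inl h2)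
      · exact absurd (h2 ▸ h1) hy
      · exact Or.inr (Or.inr h2)
    have h1 := hmono _ _ e1
    have h2 := hinv e
    have e2 : L' ∪ insert e (Kd ∪ insert y H) ⊆ insert e (insert y L') := by
      intro a ha
      rw [mem_union, mem_insert, mem_union, mem_insert] at ha
      rw [mem_insert, mem_insert]
      rcases ha with h | h | h | h | h
      · exact Or.inr (Or.inr h)
      · exact Or.inl h
      · exact Or.inr (Or.inr (hL'1 (mem_union_left _ h)))
      · exact Or.inr (Or.inl h)
      · exact Or.inr (Or.inr (hL'1 (mem_union_right _ h)))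
    have h3 := hmono _ _ e2
    have hc1 : (insert e (insert y L')).card ≤ L'.card + 2 := by
      have a1 := card_insert_le e (insert y L')
      have a2 := card_insert_le y L'
      omega
    have hc2 : L'.card + 1 ≤ (insert e (insert y L')).card := by
      have a1 : (insert y L').card = L'.card + 1 := card_insert_of_notMem hy
      have a2 : (insert y L').card ≤ (insert e (insert y L')).card :=
        card_le_card (subset_insert _ _)
      omega
    have h4 := hL'max (insert e (insert y L'))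
      (hL'1.trans ((subset_insert _ _).trans (subset_insert _ _)))
      (by omega) (by omega)
    omega
  -- the core is larger than the set of bad elements
  have hnot : ¬ (L \ Kd ⊆ L' \ (Kd ∪ H)) := by
    intro hsub
    have h1 := card_le_card hsub
    rw [card_sdiff_of_subset hL1, card_sdiff_of_subset hL'1] at h1
    have h2 : (Kd ∪ H).card = Kd.card + H.card := by
      apply card_union_of_disjoint
      rw [disjoint_left]
      intro a ha hb
      have := hHK hb
      rw [mem_sdiff] at this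
      exact this.2 ha
    have h3 := card_le_card hL1
    omega
  rw [not_subset] at hnot
  obtain ⟨y, hy1, hy2⟩ := hnot
  have hy1' := mem_sdiff.mp hy1
  have hyKH := mem_sdiff.mp (hL2 hy1'.1)
  have hyL' : y ∉ L' := by
    intro h
    apply hy2
    rw [mem_sdiff, mem_union, not_or]
    exact ⟨h, hy1'.2, hyKH.2⟩
  refine ⟨y, ?_, hcore y hy1, hbad y hyL'⟩
  rw [mem_sdiff, mem_sdiff]
  exact ⟨⟨hyKH.1, hy1'.2⟩, hyKH.2⟩

/-- **GREEDY.** -/
theorem greedy (c : Finset I → ℕ) (B : ℕ) (Kd K : Finset I)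
    (hmono : ∀ X Y : Finset I, X ⊆ Y → c X ≤ c Y)
    (hsup : ∀ X Y : Finset I, c X + c Y ≤ c (X ∪ Y) + c (X ∩ Y))
    (hone : ∀ (X : Finset I) (e : I), c (insert e X) ≤ c X + 1)
    (hmax : ∀ L : Finset I, L.card ≤ B → 3 * c L + Kd.card ≤ 3 * c Kd + L.card)
    (hKd : Kd ⊆ K) (hK : K.card ≤ B)
    (hB : Kd.card + 2 * c K + 2 ≤ B) :
    ∃ H : Finset I, H ⊆ K \ Kd ∧ H.card = (c K - c Kd + 1) / 2 ∧
      c (K \ H) + H.card = c K ∧ ∀ e, c (insert e (Kd ∪ H)) = c Kd := by
  classical
  have hKdK := hmono _ _ hKd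
  have main : ∀ h : ℕ, h ≤ (c K - c Kd + 1) / 2 → ∃ H : Finset I, H ⊆ K \ Kd ∧ H.card = h ∧
      c (K \ H) + H.card = c K ∧ ∀ e, c (insert e (Kd ∪ H)) ≤ c Kd := by
    intro h
    induction h with
    | zero =>
      intro _
      refine ⟨∅, empty_subset _, rfl, by simp, fun e => ?_⟩
      rw [union_empty]
      have h1 := card_insert_le e Kd
      have h2 := hmax (insert e Kd) (by omega)
      omega
    | succ n ih =>
      intro hn
      obtain ⟨H, hH1, hH2, hH3, hH4⟩ := ih (by omega)
      obtain ⟨y, hy, hy1, hy2⟩ := greedy_step c B Kd K hmono hsup hone hmax hKd hK hB H hH1 hH3 hH4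
        (by omega)
      rw [mem_sdiff] at hy
      refine ⟨insert y H, ?_, ?_, ?_, hy2⟩
      · intro a ha
        rw [mem_insert] at ha
        rcases ha with rfl | ha
        · exact hy.1
        · exact hH1 ha
      · rw [card_insert_of_notMem hy.2, hH2]
      · rw [card_insert_of_notMem hy.2]
        exact hy1
  obtain ⟨H, h1, h2, h3, h4⟩ := main _ le_rfl
  refine ⟨H, h1, h2, h3, fun e => le_antisymm (h4 e) ?_⟩
  exact hmono _ _ (subset_union_left.trans (subset_insert _ _))

/-- the maximiser `K_d` -/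
theorem exists_Kd [Fintype I] (c : Finset I → ℕ) (B : ℕ) :
    ∃ Kd : Finset I, Kd.card ≤ B ∧
      (∀ L : Finset I, L.card ≤ B → 3 * c L + Kd.card ≤ 3 * c Kd + L.card) ∧
      Kd.card + 3 * c ∅ ≤ 3 * c Kd := by
  classical
  have hne : ((univ : Finset (Finset I)).filter (fun L => L.card ≤ B)).Nonempty :=
    ⟨∅, by simp⟩
  obtain ⟨Kd, hKd, hmax⟩ := exists_max_image _ (fun L : Finset I => (3 * c L : ℤ) - L.card) hne
  rw [mem_filter] at hKd
  have hm : ∀ L : Finset I, L.card ≤ B → 3 * c L + Kd.card ≤ 3 * c Kd + L.card := by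
    intro L hL
    have := hmax L (by rw [mem_filter]; exact ⟨mem_univ _, hL⟩)
    omega
  refine ⟨Kd, hKd.2, hm, ?_⟩
  have := hm ∅ (by simp)
  simp only [card_empty] at this
  omega

end H42.LR
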