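import Pool.Agent.H81.LR.Cfun
import Pool.Agent.H42.LR.Greedy

/-! The maximiser `D` and the greedy set `H`: bridge from the abstract lemma. -/

set_option linter.unusedSectionVars false

open Module Submodule H15 H81.WK H81.LR

namespace H42.LR

variable {ι : Type*} [Fintype ι] {E : Type*} [AddCommGroup E] [Module ℝ E]
  [FiniteDimensional ℝ E] {w : ι → E}

theorem exists_Kmax (w : ι → E) (B : ℕ) : ∃ D : Set ι, Kmax w B D := by
  classical
  obtain ⟨Kd, h1, h2, _⟩ := exists_Kd (fun X : Finset ι => cc w (X : Set ι)) B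
  refine ⟨(Kd : Set ι), ?_, fun L hL => ?_⟩
  · rw [Set.ncard_coe_finset]; exact h1
  · have hL' : L.ncard = L.toFinset.card := Set.ncard_eq_toFinset_card' L
    have := h2 L.toFinset (by omega)
    simp only [Set.coe_toFinset] at this
    rw [Set.ncard_coe_finset, hL']
    exact this

/-- **GREEDY**, section 5 of the note. -/
theorem greedy_set {B : ℕ} {D K : Set ι} (hD : Kmax w B D) (hDK : D ⊆ K) (hK : K.ncard ≤ B)
    (hB : D.ncard + 3 * cc w K + 5 ≤ B) :
    ∃ H : Set ι, H ⊆ K \ D ∧ 2 * H.ncard ≤ cc w K + 1 ∧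
      2 * cc w (K \ H) ≤ cc w K + cc w D ∧ ∀ e, cc w (insert e (D ∪ H)) = cc w D := by
  classical
  have nc : ∀ L : Set ι, L.ncard = L.toFinset.card := fun L => Set.ncard_eq_toFinset_card' L
  have hmono := cc_mono (w := w) hDK
  obtain ⟨H, h1, h2, h3, h4⟩ := greedy (fun X : Finset ι => cc w (X : Set ι)) B
    D.toFinset K.toFinset
    (fun X Y h => cc_mono (w := w) (Finset.coe_subset.2 h))
    (fun X Y => by
      have := cc_super w (X : Set ι) (Y : Set ι)
      simpa only [Finset.coe_union, Finset.coe_inter] using this)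
    (fun X e => by
      have := cc_insert_le (w := w) e (X : Set ι)
      simpa only [Finset.coe_insert] using this)
    (fun L hL => by
      have := hD.max (L : Set ι) (by rw [Set.ncard_coe_finset]; exact hL)
      rw [Set.ncard_coe_finset, nc D] at this
      simpa only [Set.coe_toFinset] using this)
    (Set.toFinset_subset_toFinset.2 hDK)
    (by rw [← nc]; exact hK)
    (by
      rw [← nc]
      simp only [Set.coe_toFinset]
      omega)
  simp only [Set.coe_toFinset, Finset.coe_sdiff, Finset.coe_insert, Finset.coe_union] at h2 h3 h4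
  refine ⟨(H : Set ι), ?_, ?_, ?_, h4⟩
  · intro i hi
    have := h1 hi
    rw [Finset.mem_sdiff, Set.mem_toFinset, Set.mem_toFinset] at this
    exact this
  · rw [Set.ncard_coe_finset]
    omega
  · omega

end H42.LR
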