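import Pool.Agent.H81.LR.Cfun

/-! The vertex argument. -/

set_option linter.unusedSectionVars false

open Module Submodule H15 H81.WK H81.LR

namespace H42.LR

variable {ι : Type*} [Fintype ι] {E : Type*} [AddCommGroup E] [Module ℝ E]
  [FiniteDimensional ℝ E] {w : ι → E}

/-- **VERTEX**, section 10 of the note; the two facts of the module Balance are hypotheses. -/
theorem vertex_core
    (finrank_Dep : ∀ C : Set ι, finrank ℝ (Dep w C) + finrank ℝ (sp w C) = C.ncard)
    (ncard_le_of_agr : ∀ {C Z : Set ι} {V : Submodule ℝ (ι → ℝ)}, cc w Cᶜ = 0 → Z ⊆ C →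
      (∀ c ∈ Dep w C, ∃ d ∈ V, ∀ i ∈ Z, c i = d i) →
      Z.ncard ≤ cc w (Cᶜ ∪ Z) + finrank ℝ V)
    {j κ f s a : ℕ} (hF : Fam w j κ f s) {C : Set ι} (hsp : cc w Cᶜ = 0)
    (hC : C.ncard = κ + j + 1 + a) (ha : 2 * s + 1 ≤ a) {c : ι → ℝ} (hc : c ∈ Dep w C)
    (hne : ∀ i ∈ C, c i ≠ 0) (hN : {i | c i < 0}.ncard ≤ κ + 1)
    (hgen : ∀ Z N : Set ι, c ∈ Agr w Z N → Dep w C ≤ Agr w Z N) :
    ∃ P N : Set ι, SVec w P N ∧ P ∪ N = C ∧ LinearIndepOn ℝ w N ∧ N ⊆ {i | c i < 0} ∧
      ({i | c i < 0} \ N).ncard ≤ s + j := by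
  classical
  set Nc : Set ι := {i | c i < 0} with hNc
  have hc0 : ∀ i, i ∉ C → c i = 0 := hc.1
  have hcs : ∑ i, c i • w i = 0 := hc.2
  have hNcC : Nc ⊆ C := by
    intro i hi
    by_contra hcon
    have h1 : c i < 0 := hi
    have h2 := hc0 i hcon
    linarith
  let a0 : ι → ℝ := fun i => if i ∈ Nc then - c i else 0
  have ha0 : ∀ i, a0 i = if i ∈ Nc then - c i else 0 := fun _ => rfl
  obtain ⟨b, hb0, hbz, hbsum, hbind⟩ := caratheodory w a0 (by
    intro i
    rw [ha0]
    split_ifs with h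
    · have : c i < 0 := h
      linarith
    · exact le_rfl)
  set N' : Set ι := {i | 0 < b i} with hN'
  have hbN : ∀ i, i ∉ Nc → b i = 0 := fun i hi => hbz i (by rw [ha0, if_neg hi])
  have hN'Nc : N' ⊆ Nc := by
    intro i hi
    by_contra hcon
    have h1 : 0 < b i := hi
    rw [hbN i hcon] at h1
    exact lt_irrefl _ h1
  have hbN' : ∀ i, i ∉ N' → b i = 0 := by
    intro i hi
    have h1 : ¬ 0 < b i := hi
    have := hb0 i
    linarith
  -- the dependency u
  let u : ι → ℝ := fun i => a0 i - b i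
  have hu : ∀ i, u i = a0 i - b i := fun _ => rfl
  have husum : ∑ i, u i • w i = 0 := by
    simp only [hu, sub_smul, Finset.sum_sub_distrib]
    rw [hbsum, sub_self]
  have huD : u ∈ Dep w Nc := by
    refine ⟨fun i hi => ?_, husum⟩
    rw [hu, ha0, if_neg hi, hbN i hi, sub_zero]
  -- signs of c + u
  have hcu : ∀ i, (0 < c i + u i ↔ 0 < c i) ∧ (c i + u i < 0 ↔ i ∈ N') := by
    intro i
    by_cases hi : i ∈ Nc
    · have h1 : c i < 0 := hi
      have h2 : c i + u i = - b i := by rw [hu, ha0, if_pos hi]; ring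
      rw [h2]
      have h3 := hb0 i
      refine ⟨⟨fun h => by linarith, fun h => by linarith⟩, ?_⟩
      constructor
      · intro h
        have : 0 < b i := by linarith
        exact this
      · intro h
        have : 0 < b i := h
        linarith
    · have h1 : ¬ c i < 0 := hi
      have h2 : c i + u i = c i := by rw [hu, ha0, if_neg hi, hbN i hi]; ring
      rw [h2]
      refine ⟨Iff.rfl, ⟨fun h => absurd h h1, fun h => absurd (hN'Nc h) hi⟩⟩
  have hS1 : SVec w {i | 0 < c i} N' := by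
    refine ⟨fun i => c i + u i, ?_, fun i => (hcu i).1, fun i => (hcu i).2⟩
    simp only [add_smul, Finset.sum_add_distrib, hcs, husum, add_zero]
  have hS2 : SVec w Nc {i | 0 < c i} := by
    refine ⟨fun i => - c i, ?_, fun i => ?_, fun i => ?_⟩
    · simp only [neg_smul, Finset.sum_neg_distrib, hcs, neg_zero]
    · rw [neg_pos]; exact Iff.rfl
    · rw [neg_lt_zero]; exact Iff.rfl
  have hS := hS1.comp hS2
  have e1 : N' ∪ ({i | 0 < c i} \ {i | 0 < c i}) = N' := by
    rw [Set.sdiff_self, Set.union_empty]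
  rw [e1] at hS
  refine ⟨_, N', hS, ?_, hbind, hN'Nc, ?_⟩
  · ext i
    simp only [Set.mem_union, Set.mem_sdiff]
    constructor
    · rintro ((h | h) | h)
      · by_contra hcon
        have h1 : 0 < c i := h
        rw [hc0 i hcon] at h1
        exact lt_irrefl _ h1
      · exact hNcC h.1
      · exact hNcC (hN'Nc h)
    · intro h
      by_cases h1 : i ∈ N'
      · exact Or.inr h1
      · rcases lt_or_gt_of_ne (hne i h) with h2 | h2
        · exact Or.inl (Or.inr ⟨h2, h1⟩)
        · exact Or.inl (Or.inl h2)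
  · -- the size of Z
    set Z : Set ι := Nc \ N' with hZ
    have hAgr : c ∈ Agr w Z Nc := by
      refine ⟨-u, neg_mem huD, fun i hi => ?_⟩
      have h1 : i ∈ Nc := hi.1
      have h2 : b i = 0 := hbN' i hi.2
      rw [Pi.neg_apply, hu, ha0, if_pos h1, h2]
      ring
    have hle := hgen Z Nc hAgr
    have h1 := ncard_le_of_agr (C := C) (Z := Z) (V := Dep w Nc) hsp
      (fun i hi => hNcC hi.1) (fun d hd => hle hd)
    have h2 := finrank_Dep Nc
    have h3 : finrank ℝ (sp w Nc) ≤ κ + 1 := (finrank_sp_le).trans hN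
    have h4 := hF.fc _ h3
    have h5 : Nc.ncard ≤ {i | w i ∈ sp w Nc}.ncard :=
      Set.ncard_le_ncard (fun i hi => mem_sp hi) (Set.toFinite _)
    by_contra hcon
    rw [not_le] at hcon
    have h6 : j ≤ cc w (Cᶜ ∪ Z) := by omega
    have h7 := cap hF h6
    have h8 := Set.ncard_union_le Cᶜ Z
    have h9 := Set.ncard_add_ncard_compl C
    rw [Nat.card_eq_fintype_card] at h9
    have h10 := hF.card
    have h11 := hF.dim
    omega

end H42.LR
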